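import Pool.Agent.helper55.GL.Spec

/-!
# Module CON of project gl (MP_51d945_co): connected graphs and their proper colourings
-/

set_option autoImplicit false

namespace Pool.Agent.GL

open SimpleGraph

private theorem CON_adj {V : Type} (H : SimpleGraph V) {a b : V} (p : H.Walk a b) (h : a ≠ b) :
    ∃ x, H.Adj a x := by
  cases p with
  | nil => exact absurd rfl h
  | cons h' _ => exact ⟨_, h'⟩

private theorem CON_col {V : Type} (H : SimpleGraph V) (c c' : V → Bool) (hc : Pr H c)
    (hc' : Pr H c') {a b : V} (p : H.Walk a b) : c' a = c a ↔ c' b = c b := by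
  induction p with
  | nil => exact Iff.rfl
  | @cons u v w h q ih =>
    rw [← ih]
    have h1 := hc u v h
    have h2 := hc' u v h
    revert h1 h2
    cases c u <;> cases c v <;> cases c' u <;> cases c' v <;> simp

theorem CON : CON_stmt := by
  classical
  intro V _ H hH
  refine ⟨fun h3 => ?_, fun c c' hc hc' => ?_⟩
  · have h1 : ∀ a, ∃ b, H.Adj a b := by
      intro a
      obtain ⟨b, hb⟩ : ∃ b, a ≠ b := by
        by_contra hno
        push Not at hno
        have h4 : Fintype.card V ≤ 1 := Fintype.card_le_one_iff.2 fun x y => by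
          rw [← hno x, ← hno y]
        omega
      obtain ⟨p⟩ := hH.preconnected a b
      exact CON_adj H p hb
    refine ⟨h1, ?_⟩
    obtain ⟨a⟩ := hH.nonempty
    obtain ⟨b, hab⟩ := h1 a
    obtain ⟨x, hx⟩ : ∃ x, x ∉ ({a, b} : Finset V) := by
      by_contra hno
      push Not at hno
      have h4 : (Finset.univ : Finset V) ⊆ {a, b} := fun y _ => hno y
      have h5 := Finset.card_le_card h4
      have h6 := Finset.card_le_two (a := a) (b := b)
      rw [Finset.card_univ] at h5
      omega
    obtain ⟨y, hxy⟩ := h1 x
    refine ⟨s(a, b), hab, s(x, y), hxy, ?_⟩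
    intro he
    apply hx
    have h5 : x ∈ (s(a, b) : Sym2 V) := by rw [he]; exact Sym2.mem_mk_left x y
    rcases Sym2.mem_iff.1 h5 with h | h
    · rw [h]; exact Finset.mem_insert_self _ _
    · rw [h]; exact Finset.mem_insert_of_mem (Finset.mem_singleton_self _)
  · obtain ⟨r⟩ := hH.nonempty
    by_cases hr : c' r = c r
    · left
      funext v
      obtain ⟨p⟩ := hH.preconnected r v
      exact (CON_col H c c' hc hc' p).1 hr
    · right
      funext v
      obtain ⟨p⟩ := hH.preconnected r v
      have h4 : ¬ c' v = c v := fun h => hr ((CON_col H c c' hc hc' p).2 h)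
      revert h4
      cases c v <;> cases c' v <;> simp

end Pool.Agent.GL
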